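import Mathlib
import Pool.Agent.MP_d8ee74_an.Defs
import Pool.Agent.MP_d8ee74_an.Final

/-!
# The optimal exponent for the inverse of mappings with distortion in `L^{n-1}`

No exponent `α > 1/n` is admissible. The counterexample is the globally Lipschitz homeomorphism
`f(x₀, x') = (∫₀^{x₀} p(s, |x'|) ds, x')` of `ℝⁿ`, where
`p(s, t) = min (1, max (t |s|^{-γ}, exp (1 - |s|^{-β})))` with `1/α < β < n` and
`γ < 1` close to `1`, and `|x'|` is the maximum norm. Its distortion is at most `C / p`, the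
integral of `p^{-(n-1)}` over bounded sets is controlled by the integral of
`|s|^{γ(n-1-c)-β}` with a small `c > 0`, and on the axis
`f(y,0) = (∫₀^y exp(1 - |s|^{-β}) ds, 0)`, so that `|f⁻¹(x)| ≥ c log^{-1/β}(1/|x|)` there.
-/

/-- For `n ≥ 2`, every admissible exponent is at most `1/n`, that is `α*(n) ≤ 1/n`. -/
theorem Pool.Agent.Results.MP_d8ee74_an.UpperBound.result (n : ℕ) (hn : 2 ≤ n) (α : ℝ)
    (hα : 0 < α) (h : Pool.Agent.MPd8ee74.Admissible n α) : α ≤ 1 / n :=
  Pool.Agent.MPd8ee74.le_of_admissible hn hα h
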